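import Mathlib

set_option autoImplicit false

namespace Pool.Agent.LimitIdeal

open Filter Topology Set

/-- Cantor space. -/
abbrev C := ℕ → Bool

/-- the subset of `ℕ` coded by a point of Cantor space -/
def toSet (f : C) : Set ℕ := {n | f n = true}

noncomputable def ofSet (A : Set ℕ) : C := by
  classical exact fun n => decide (n ∈ A)

@[simp] lemma toSet_ofSet (A : Set ℕ) : toSet (ofSet A) = A := by
  ext n; simp [toSet, ofSet]

@[simp] lemma ofSet_toSet (f : C) : ofSet (toSet f) = f := by
  funext n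
  by_cases h : f n = true
  · simp [toSet, ofSet, h]
  · simp only [Bool.not_eq_true] at h
    simp [toSet, ofSet, h]

/-- the basic sequence: every value of a dense sequence is taken infinitely often -/
noncomputable def x (n : ℕ) : C := TopologicalSpace.denseSeq C (Nat.unpair n).1

/-- accumulation points of `x` along `A` -/
def acc (A : Set ℕ) : Set C := {p | ∀ U ∈ 𝓝 p, (A ∩ x ⁻¹' U).Infinite}

/-- `x` converges to `p` along `S` -/
def Conv (S : Set ℕ) (p : C) : Prop := ∀ U ∈ 𝓝 p, (S \ x ⁻¹' U).Finite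

lemma conv_iff (S : Set ℕ) (p : C) :
    Tendsto x (atTop ⊓ 𝓟 S) (𝓝 p) ↔ Conv S p := by
  unfold Conv
  constructor
  · intro h U hU
    have h1 := h hU
    rw [Filter.mem_map, Filter.mem_inf_principal, ← Nat.cofinite_eq_atTop,
      Filter.mem_cofinite] at h1
    refine h1.subset ?_
    rintro n ⟨hn, hn'⟩
    simp only [mem_compl_iff, mem_ofPred_eq, not_forall]
    exact ⟨hn, hn'⟩
  · intro h U hU
    have h1 := h U hU
    rw [Filter.mem_map, Filter.mem_inf_principal, ← Nat.cofinite_eq_atTop,
      Filter.mem_cofinite]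
    refine h1.subset ?_
    intro n hn
    simp only [mem_compl_iff, mem_ofPred_eq, not_forall] at hn
    obtain ⟨hn1, hn2⟩ := hn
    exact ⟨hn1, hn2⟩

lemma preimage_infinite {U : Set C} (hU : IsOpen U) (hne : U.Nonempty) :
    (x ⁻¹' U).Infinite := by
  obtain ⟨m, hm⟩ := (TopologicalSpace.denseRange_denseSeq C).exists_mem_open hU hne
  refine Set.infinite_of_injective_forall_mem (f := fun k => Nat.pair m k) ?_ ?_
  · intro a b hab
    have := congrArg Nat.unpair hab
    simpa using this
  · intro k
    simp [x, hm]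

lemma acc_mono {A B : Set ℕ} (h : A ⊆ B) : acc A ⊆ acc B := by
  intro p hp U hU
  exact (hp U hU).mono (inter_subset_inter_left _ h)

lemma acc_union (A B : Set ℕ) : acc (A ∪ B) = acc A ∪ acc B := by
  apply Subset.antisymm
  · intro p hp
    by_contra hcon
    rw [mem_union, not_or] at hcon
    obtain ⟨hA, hB⟩ := hcon
    simp only [acc, mem_ofPred_eq, not_forall, Set.not_infinite] at hA hB
    obtain ⟨U, hU, hUA⟩ := hA
    obtain ⟨V, hV, hVB⟩ := hB
    refine hp (U ∩ V) (Filter.inter_mem hU hV) ((hUA.union hVB).subset ?_)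
    rintro n ⟨hn, hn'⟩
    rcases hn with hn | hn
    · exact Or.inl ⟨hn, hn'.1⟩
    · exact Or.inr ⟨hn, hn'.2⟩
  · exact union_subset (acc_mono subset_union_left) (acc_mono subset_union_right)

lemma acc_finite {A : Set ℕ} (h : A.Finite) : acc A = ∅ := by
  ext p
  simp only [acc, mem_ofPred_eq, mem_empty_iff_false, iff_false, not_forall, Set.not_infinite]
  exact ⟨univ, Filter.univ_mem, h.subset inter_subset_left⟩

lemma acc_univ : acc univ = univ := by
  ext p
  simp only [mem_univ, iff_true]
  intro U hU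
  obtain ⟨V, hVU, hV, hp⟩ := mem_nhds_iff.1 hU
  rw [univ_inter]
  exact (preimage_infinite hV ⟨p, hp⟩).mono (preimage_mono hVU)

lemma acc_of_inter_infinite {A S : Set ℕ} {p : C} (hS : Conv S p)
    (h : (A ∩ S).Infinite) : p ∈ acc A := by
  intro U hU
  have h1 := hS U hU
  refine (h.sdiff h1).mono ?_
  rintro n ⟨⟨hnA, hnS⟩, hn⟩
  refine ⟨hnA, ?_⟩
  by_contra hcon
  exact hn ⟨hnS, hcon⟩

lemma acc_conv {S : Set ℕ} {p : C} (hS : Conv S p) : acc S ⊆ {p} := by
  intro q hq
  by_contra hne
  rw [mem_singleton_iff] at hne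
  obtain ⟨U, V, hU, hV, hqU, hpV, hUV⟩ := t2_separation hne
  refine hq U (hU.mem_nhds hqU) ((hS V (hV.mem_nhds hpV)).subset ?_)
  rintro n ⟨hn, hn'⟩
  exact ⟨hn, fun h => (disjoint_left.1 hUV) hn' h⟩

/-- the small sets: those with finitely many accumulation points -/
def J : Set (Set ℕ) := {A | (acc A).Finite}

lemma J_mono {A B : Set ℕ} (h : A ⊆ B) (hB : B ∈ J) : A ∈ J :=
  Set.Finite.subset hB (acc_mono h)

lemma J_union {A B : Set ℕ} (hA : A ∈ J) (hB : B ∈ J) : A ∪ B ∈ J := by
  show (acc (A ∪ B)).Finite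
  rw [acc_union]
  exact Set.Finite.union hA hB

lemma J_finite {A : Set ℕ} (h : A.Finite) : A ∈ J := by
  show (acc A).Finite
  rw [acc_finite h]
  exact finite_empty

/-- every nonempty open subset of Cantor space is infinite -/
lemma open_infinite {U : Set C} (hU : IsOpen U) (hne : U.Nonempty) : U.Infinite := by
  obtain ⟨p, hp⟩ := hne
  have h1 : Tendsto (fun n : ℕ => Function.update p n (!p n)) atTop (𝓝 p) := by
    rw [tendsto_pi_nhds]
    intro i
    refine tendsto_const_nhds.congr' ?_
    filter_upwards [eventually_gt_atTop i] with n hn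
    rw [Function.update_of_ne (ne_of_lt hn)]
  obtain ⟨N, hN⟩ := Filter.eventually_atTop.1 (h1 (hU.mem_nhds hp))
  refine Set.infinite_of_injective_forall_mem
    (f := fun k : ℕ => Function.update p (N + k) (!p (N + k))) ?_ ?_
  · intro a b hab
    by_contra hne
    have h2 := congrFun hab (N + a)
    simp only [Function.update_self] at h2
    rw [Function.update_of_ne (by omega)] at h2
    revert h2
    cases p (N + a) <;> simp
  · intro k
    exact hN (N + k) (by omega)

lemma univ_notMem_J : (univ : Set ℕ) ∉ J := by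
  intro h
  have : (acc univ).Finite := h
  rw [acc_univ] at this
  exact open_infinite isOpen_univ ⟨fun _ => true, mem_univ _⟩ this

/-- a finite union of small sets misses infinitely many indices over every open set -/
lemma diff_infinite {A : Set ℕ} (hA : A ∈ J) {U : Set C} (hU : IsOpen U) (hne : U.Nonempty) :
    (x ⁻¹' U \ A).Infinite := by
  have h1 : (U \ acc A).Nonempty := ((open_infinite hU hne).sdiff hA).nonempty
  obtain ⟨q, hqU, hqA⟩ := h1
  simp only [acc, mem_ofPred_eq, not_forall, Set.not_infinite] at hqA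
  obtain ⟨V, hV, hVA⟩ := hqA
  obtain ⟨W, hWV, hW, hqW⟩ := mem_nhds_iff.1 hV
  have h2 : (x ⁻¹' (W ∩ U)).Infinite := preimage_infinite (hW.inter hU) ⟨q, hqW, hqU⟩
  refine (h2.sdiff hVA).mono ?_
  rintro n ⟨⟨hnW, hnU⟩, hn⟩
  refine ⟨hnU, fun hnA => hn ⟨hnA, hWV hnW⟩⟩

/-- finite unions of small sets are small -/
lemma J_biUnion (c : ℕ → Set ℕ) (hc : ∀ i, c i ∈ J) (n : ℕ) : (⋃ i ∈ Finset.range n, c i) ∈ J := by
  induction n with
  | zero => simpa using J_finite finite_empty
  | succ n ih =>
    rw [Finset.range_add_one, Finset.set_biUnion_insert]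
    exact J_union (hc n) ih

/-- a sequence converging to `p`, almost disjoint from countably many given small sets -/
lemma exists_conv (p : C) (c : ℕ → Set ℕ) (hc : ∀ i, c i ∈ J) :
    ∃ S : Set ℕ, S.Infinite ∧ Conv S p ∧ ∀ i, (c i ∩ S).Finite := by
  obtain ⟨u, hu⟩ := (𝓝 p).exists_antitone_basis
  have h1 : ∀ k : ℕ, ∃ n : ℕ, k ≤ n ∧ x n ∈ u k ∧ ∀ i < k, n ∉ c i := by
    intro k
    have hk : u k ∈ 𝓝 p := hu.1.mem_of_mem trivial
    obtain ⟨W, hWV, hW, hqW⟩ := mem_nhds_iff.1 hk
    have h2 := diff_infinite (J_biUnion c hc k) hW ⟨p, hqW⟩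
    obtain ⟨n, hn, hkn⟩ := h2.exists_gt k
    refine ⟨n, hkn.le, hWV hn.1, ?_⟩
    intro i hi hni
    refine hn.2 ?_
    simp only [mem_iUnion, Finset.mem_range]
    exact ⟨i, hi, hni⟩
  choose n hn using h1
  refine ⟨range n, ?_, ?_, ?_⟩
  · intro hfin
    obtain ⟨b, hb⟩ := hfin.bddAbove
    have h3 := hb (mem_range_self (b + 1))
    have h4 := (hn (b + 1)).1
    omega
  · intro U hU
    obtain ⟨k, -, hk⟩ := hu.1.mem_iff.1 hU
    refine ((Set.finite_lt_nat k).image n).subset ?_
    rintro m ⟨⟨j, rfl⟩, hj⟩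
    refine ⟨j, ?_, rfl⟩
    by_contra hcon
    have hcon' : k ≤ j := by simpa using hcon
    exact hj (hk (hu.2 hcon' (hn j).2.1))
  · intro i
    refine ((Set.finite_le_nat i).image n).subset ?_
    rintro m ⟨hm, ⟨j, rfl⟩⟩
    refine ⟨j, ?_, rfl⟩
    by_contra hcon
    have hcon' : i < j := by simpa using hcon
    exact (hn j).2.2 i hcon' hm

/-- the same for a countable family of codes -/
lemma exists_conv' (p : C) (R : Set C) (hR : R.Countable) :
    ∃ S : Set ℕ, S.Infinite ∧ Conv S p ∧ ∀ q ∈ R, toSet q ∈ J → (toSet q ∩ S).Finite := by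
  classical
  rcases (R ∩ {q | toSet q ∈ J}).eq_empty_or_nonempty with he | hne
  · obtain ⟨S, h1, h2, h3⟩ := exists_conv p (fun _ => ∅) (fun _ => J_finite finite_empty)
    refine ⟨S, h1, h2, fun q hq hqJ => ?_⟩
    have : q ∈ (R ∩ {q | toSet q ∈ J}) := ⟨hq, hqJ⟩
    rw [he] at this
    exact absurd this (notMem_empty q)
  · obtain ⟨f, hf⟩ := (hR.mono (inter_subset_left (t := {q | toSet q ∈ J}))).exists_eq_range hne
    obtain ⟨S, h1, h2, h3⟩ := exists_conv p (fun i => toSet (f i)) (fun i => by
      have : f i ∈ (R ∩ {q | toSet q ∈ J}) := by rw [hf]; exact mem_range_self i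
      exact this.2)
    refine ⟨S, h1, h2, fun q hq hqJ => ?_⟩
    have : q ∈ (R ∩ {q | toSet q ∈ J}) := ⟨hq, hqJ⟩
    rw [hf] at this
    obtain ⟨i, rfl⟩ := this
    exact h3 i

/-- sets reachable under a relation with countable out-degrees are countable -/
lemma countable_reach {α : Type*} (r : α → α → Prop) (h : ∀ a, {b | r a b}.Countable) (p : α) :
    {q | Relation.ReflTransGen r p q}.Countable := by
  let L : ℕ → Set α := fun n => Nat.rec {p} (fun _ s => ⋃ a ∈ s, {b | r a b}) n
  have hL : ∀ n, (L n).Countable := by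
    intro n
    induction n with
    | zero => exact countable_singleton p
    | succ n ih => exact ih.biUnion (fun a _ => h a)
  refine (countable_iUnion hL).mono ?_
  intro q hq
  have hq' : Relation.ReflTransGen r p q := hq
  induction hq' with
  | refl => exact mem_iUnion.2 ⟨0, rfl⟩
  | tail hab hbc ih =>
    obtain ⟨n, hn⟩ := mem_iUnion.1 (ih hab)
    refine mem_iUnion.2 ⟨n + 1, ?_⟩
    exact mem_iUnion₂.2 ⟨_, hn, hbc⟩

section graph

variable (r : C → C → Prop) [IsWellOrder C r]

/-- the edges known before stage `p` -/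
def Edge (p : C) (f : (q : C) → r q p → Set ℕ) (a b : C) : Prop :=
  ∃ h : r b p, toSet a ∈ J ∧ (toSet a ∩ f b h).Infinite

def Good (p : C) (f : (q : C) → r q p → Set ℕ) (S : Set ℕ) : Prop :=
  S.Infinite ∧ Conv S p ∧
    ∀ q, Relation.ReflTransGen (Edge r p f) p q → toSet q ∈ J → (toSet q ∩ S).Finite

open Classical in
noncomputable def step (p : C) (f : (q : C) → r q p → Set ℕ) : Set ℕ :=
  if h : ∃ S, Good r p f S then h.choose else ∅

noncomputable def Sel : C → Set ℕ := (IsWellFounded.wf (r := r)).fix (step r)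

lemma Sel_eq (p : C) : Sel r p = step r p (fun q _ => Sel r q) := by
  unfold Sel
  rw [WellFounded.fix_eq]

lemma Sel_good (p : C) : Good r p (fun q _ => Sel r q) (Sel r p) := by
  induction p using (IsWellFounded.wf (r := r)).induction with
  | _ p ih =>
    have hex : ∃ S, Good r p (fun q _ => Sel r q) S := by
      obtain ⟨S, h1, h2, h3⟩ := exists_conv' p
        {q | Relation.ReflTransGen (Edge r p (fun q _ => Sel r q)) p q}
        (countable_reach _ (fun a => by
          by_cases ha : toSet a ∈ J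
          · refine (Set.Finite.countable (s := acc (toSet a)) ha).mono ?_
            rintro b ⟨hb, -, hb2⟩
            exact acc_of_inter_infinite (ih b hb).2.1 hb2
          · convert countable_empty
            ext b
            simp only [mem_ofPred_eq, mem_empty_iff_false, iff_false]
            rintro ⟨-, h, -⟩
            exact ha h) p)
      exact ⟨S, h1, h2, h3⟩
    rw [Sel_eq]
    unfold step
    rw [dif_pos hex]
    exact hex.choose_spec

/-- the final edge relation -/
def E (a b : C) : Prop := toSet a ∈ J ∧ toSet b ∈ J ∧ (toSet a ∩ Sel r b).Infinite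

lemma E_acc {a b : C} (h : E r a b) : b ∈ acc (toSet a) :=
  acc_of_inter_infinite (Sel_good r b).2.1 h.2.2

lemma E_finite (a : C) : {b | E r a b}.Finite := by
  by_cases ha : toSet a ∈ J
  · exact Set.Finite.subset (s := acc (toSet a)) ha (fun b hb => E_acc r hb)
  · convert finite_empty
    ext b
    simp only [mem_ofPred_eq, mem_empty_iff_false, iff_false]
    rintro ⟨h, -⟩
    exact ha h

lemma E_key {p c : C} (h : Relation.ReflTransGen (fun a b => E r a b ∧ r b p) p c) :
    ¬ E r c p := by
  intro hcp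
  refine hcp.2.2 ((Sel_good r p).2.2 c ?_ hcp.1)
  refine Relation.ReflTransGen.mono ?_ _ _ h
  rintro a b ⟨hab, hb⟩
  exact ⟨hb, hab.1, hab.2.2⟩

/-- every nonempty path can be cut at its largest target -/
lemma cut {a b : C} (h : Relation.TransGen (E r) a b) :
    ∃ p, Relation.TransGen (fun a b => E r a b ∧ ¬ r p b) a p ∧
      Relation.ReflTransGen (fun a b => E r a b ∧ r b p) p b := by
  induction h with
  | single h =>
    exact ⟨_, Relation.TransGen.single ⟨h, irrefl _⟩, Relation.ReflTransGen.refl⟩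
  | tail hab hbc ih =>
    rename_i b c
    obtain ⟨p, h1, h2⟩ := ih
    by_cases hc : r c p
    · exact ⟨p, h1, h2.tail ⟨hbc, hc⟩⟩
    · refine ⟨c, ?_, Relation.ReflTransGen.refl⟩
      have hpc : p = c ∨ r p c := by
        rcases trichotomous_of r p c with h | h | h
        · exact Or.inr h
        · exact Or.inl h
        · exact absurd h hc
      have h3 : ∀ d, ¬ r p d → ¬ r c d := by
        intro d hd hcd
        rcases hpc with rfl | hpc
        · exact hd hcd
        · exact hd (_root_.trans hpc hcd)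
      have h4 : ∀ d, r d p → ¬ r c d := by
        intro d hd hcd
        rcases hpc with rfl | hpc
        · exact asymm hd hcd
        · exact asymm (_root_.trans hpc hcd) hd
      have h5 : Relation.TransGen (fun a b => E r a b ∧ ¬ r c b) _ p :=
        Relation.TransGen.mono (fun a b hab => ⟨hab.1, h3 b hab.2⟩) _ _ h1
      have h6 : Relation.ReflTransGen (fun a b => E r a b ∧ ¬ r c b) p b :=
        Relation.ReflTransGen.mono (fun a b hab => ⟨hab.1, h4 b hab.2⟩) _ _ h2
      exact (h5.trans_left h6).tail ⟨hbc, irrefl _⟩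

lemma acyclic (a : C) : ¬ Relation.TransGen (E r) a a := by
  intro h
  obtain ⟨p, h1, h2⟩ := cut r h
  have : ∀ a, Relation.TransGen (fun a b => E r a b ∧ ¬ r p b) a p →
      Relation.ReflTransGen (fun a b => E r a b ∧ r b p) p a → False := by
    intro a h1
    induction h1 using Relation.TransGen.head_induction_on with
    | single h => exact fun h2 => E_key r h2 h.1
    | head h' h ih =>
      intro h2
      rename_i a c
      rcases trichotomous_of r c p with h3 | h3 | h3
      · exact ih (h2.tail ⟨h'.1, h3⟩)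
      · subst h3
        exact E_key r h2 h'.1
      · exact h'.2 h3
  exact this a h1 h2

end graph

/-- kernels of locally finite acyclic digraphs, by compactness -/
lemma exists_kernel {V : Type*} (e : V → V → Prop) (hfin : ∀ a, {b | e a b}.Finite)
    (hac : ∀ a, ¬ Relation.TransGen e a a) :
    ∃ K : Set V, ∀ a, a ∈ K ↔ ∀ b, e a b → b ∉ K := by
  classical
  let Z : V → Set (V → Bool) := fun a => {g | g a = true ↔ ∀ b, e a b → g b = false}
  have hcl : ∀ a, IsClosed (Z a) := by
    intro a
    have h1 : ∀ (b : V) (c : Bool), IsClopen {g : V → Bool | g b = c} := fun b c =>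
      (isClopen_discrete {c}).preimage (continuous_apply b)
    have h2 : IsClopen {g : V → Bool | ∀ b, e a b → g b = false} := by
      have : {g : V → Bool | ∀ b, e a b → g b = false} =
          ⋂ b ∈ {b | e a b}, {g : V → Bool | g b = false} := by
        ext g; simp
      rw [this]
      exact (hfin a).isClopen_biInter (fun b _ => h1 b false)
    have h3 : Z a = ({g : V → Bool | g a = true} ∩ {g : V → Bool | ∀ b, e a b → g b = false}) ∪
        ({g : V → Bool | g a = true}ᶜ ∩ {g : V → Bool | ∀ b, e a b → g b = false}ᶜ) := by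
      ext g
      simp only [Z, mem_ofPred_eq, mem_union, mem_inter_iff, mem_compl_iff]
      tauto
    rw [h3]
    exact (((h1 a true).inter h2).union ((h1 a true).compl.inter h2.compl)).isClosed
  have hne : ∀ s : Finset V, (⋂ a ∈ s, Z a).Nonempty := by
    intro s
    let e' : s → s → Prop := fun b a => Relation.TransGen e a.1 b.1
    have : IsTrans s e' := ⟨fun a b c hab hbc => Relation.TransGen.trans hbc hab⟩
    have : Std.Irrefl e' := ⟨fun a h => hac a.1 h⟩
    have hwf : WellFounded e' := Finite.wellFounded_of_trans_of_irrefl e'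
    let F : (a : s) → ((b : s) → e' b a → Bool) → Bool := fun a f =>
      decide (∀ b : s, ∀ h : e a.1 b.1, f b (Relation.TransGen.single h) = false)
    let g0 : s → Bool := hwf.fix F
    have hg0 : ∀ a : s, g0 a = decide (∀ b : s, e a.1 b.1 → g0 b = false) := by
      intro a
      show hwf.fix F a = _
      rw [WellFounded.fix_eq]
    refine ⟨fun a => if h : a ∈ s then g0 ⟨a, h⟩ else false, ?_⟩
    simp only [mem_iInter]
    intro a ha
    simp only [Z, mem_ofPred_eq]
    rw [dif_pos ha, hg0, decide_eq_true_iff]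
    constructor
    · intro h b hb
      by_cases hbs : b ∈ s
      · rw [dif_pos hbs]
        exact h ⟨b, hbs⟩ hb
      · rw [dif_neg hbs]
    · intro h b hb
      have := h b.1 hb
      rw [dif_pos b.2] at this
      exact this
  obtain ⟨g, hg⟩ := CompactSpace.iInter_nonempty hcl hne
  refine ⟨{a | g a = true}, fun a => ?_⟩
  have h1 := mem_iInter.1 hg a
  simp only [Z, mem_ofPred_eq] at h1
  simp only [mem_ofPred_eq, h1, Bool.not_eq_true]

theorem main : ∃ I : Set (Set ℕ),
      (∀ A B : Set ℕ, A ∈ I → B ⊆ A → B ∈ I) ∧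
      (∀ A B : Set ℕ, A ∈ I → B ∈ I → A ∪ B ∈ I) ∧
      (∀ A : Set ℕ, A.Finite → A ∈ I) ∧
      (Set.univ : Set ℕ) ∉ I ∧
      ∃ x : ℕ → (ℕ → Bool),
        {ℓ : ℕ → Bool | ∃ A : Set ℕ, A ∉ I ∧
            Filter.Tendsto x (Filter.atTop ⊓ Filter.principal A) (nhds ℓ)}
          = {f : ℕ → Bool | {n : ℕ | f n = true} ∈ I} := by
  let r : C → C → Prop := WellOrderingRel
  obtain ⟨K, hK⟩ := exists_kernel (E r) (E_finite r) (acyclic r)
  refine ⟨{A | A ∈ J ∧ ofSet A ∈ K}, ?_, ?_, ?_, ?_, x, ?_⟩
  · rintro A B ⟨hA, hAK⟩ hBA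
    have hB : B ∈ J := J_mono hBA hA
    refine ⟨hB, ?_⟩
    rw [hK] at hAK ⊢
    intro b hb
    refine hAK b ⟨by simpa using hA, hb.2.1, ?_⟩
    have := hb.2.2
    rw [toSet_ofSet] at this ⊢
    exact this.mono (inter_subset_inter_left _ hBA)
  · rintro A B ⟨hA, hAK⟩ ⟨hB, hBK⟩
    have hAB : A ∪ B ∈ J := J_union hA hB
    refine ⟨hAB, ?_⟩
    rw [hK] at hAK hBK ⊢
    intro b hb
    have h1 := hb.2.2
    rw [toSet_ofSet, union_inter_distrib_right, Set.infinite_union] at h1
    rcases h1 with h1 | h1
    · exact hAK b ⟨by simpa using hA, hb.2.1, by simpa using h1⟩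
    · exact hBK b ⟨by simpa using hB, hb.2.1, by simpa using h1⟩
  · intro A hA
    refine ⟨J_finite hA, ?_⟩
    rw [hK]
    intro b hb
    exfalso
    have h1 := hb.2.2
    rw [toSet_ofSet] at h1
    exact h1 (hA.subset inter_subset_left)
  · rintro ⟨h, -⟩
    exact univ_notMem_J h
  · ext p
    simp only [mem_ofPred_eq]
    constructor
    · rintro ⟨A, hA, hconv⟩
      rw [conv_iff] at hconv
      have hAJ : A ∈ J := Set.Finite.subset (finite_singleton p) (acc_conv hconv)
      have hAK : ofSet A ∉ K := fun h => hA ⟨hAJ, h⟩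
      rw [hK] at hAK
      push Not at hAK
      obtain ⟨b, hb, hbK⟩ := hAK
      have h1 := E_acc r hb
      rw [toSet_ofSet] at h1
      have h2 : b = p := acc_conv hconv h1
      subst h2
      refine ⟨hb.2.1, ?_⟩
      have : ofSet {n | b n = true} = b := ofSet_toSet b
      rw [this]
      exact hbK
    · rintro ⟨hJ, hKp⟩
      have hKp' : p ∈ K := by
        have : ofSet {n | p n = true} = p := ofSet_toSet p
        rwa [this] at hKp
      have hg := Sel_good r p
      refine ⟨Sel r p, ?_, (conv_iff _ _).2 hg.2.1⟩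
      rintro ⟨h1, h2⟩
      rw [hK] at h2
      refine h2 p ⟨by simpa using h1, hJ, ?_⟩ hKp'
      rw [toSet_ofSet, inter_self]
      exact hg.1

end Pool.Agent.LimitIdeal
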